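import Mathlib

/-!
# SIM-4 Bounds: uniform bounds on a compact set of injective linear maps
Norms are bounded on the compact set `S`. For the lower bound: `(T, v) ↦ ‖T v‖` is continuous and positive on the compact set
`S ×ˢ sphere 0 1` (finite dimension), so it has a positive minimum `μ` there (if the set is nonempty); `M = max`. Scale `v`.
-/

set_option autoImplicit false

namespace SIM

theorem exists_bound {V : Type*} [NormedAddCommGroup V] [NormedSpace ℝ V] [FiniteDimensional ℝ V]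
    {S : Set (V →L[ℝ] V)} (hS : IsCompact S) (hinj : ∀ T ∈ S, Function.Injective T) :
    ∃ M : ℝ, 1 ≤ M ∧ ∀ T ∈ S, ‖T‖ ≤ M ∧ ∀ v, ‖v‖ ≤ M * ‖T v‖ := by
  have hprop : ProperSpace V := FiniteDimensional.proper_real V
  obtain ⟨C, hC⟩ := hS.isBounded.exists_norm_le
  have hunit : ∀ v : V, v ≠ 0 → ‖v‖⁻¹ • v ∈ Metric.sphere (0 : V) 1 := by
    intro v hv
    rw [mem_sphere_zero_iff_norm, norm_smul, norm_inv, norm_norm,
      inv_mul_cancel₀ (norm_ne_zero_iff.2 hv)]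
  have hK : IsCompact (S ×ˢ Metric.sphere (0 : V) 1) := hS.prod (isCompact_sphere 0 1)
  have key : ∃ N : ℝ, 0 ≤ N ∧ ∀ T ∈ S, ∀ v, ‖v‖ ≤ N * ‖T v‖ := by
    rcases (S ×ˢ Metric.sphere (0 : V) 1).eq_empty_or_nonempty with h | h
    · refine ⟨0, le_rfl, fun T hT v => ?_⟩
      by_cases hv : v = 0
      · rw [hv]
        simp
      · exfalso
        have h1 : (T, ‖v‖⁻¹ • v) ∈ S ×ˢ Metric.sphere (0 : V) 1 := ⟨hT, hunit v hv⟩
        rw [h] at h1
        exact h1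
    · have hc : Continuous fun p : (V →L[ℝ] V) × V => ‖p.1 p.2‖ := by fun_prop
      obtain ⟨⟨T₀, v₀⟩, ⟨hT₀, hv₀⟩, hmin⟩ := hK.exists_isMinOn h hc.continuousOn
      have hv₀' : v₀ ≠ 0 := by
        rintro rfl
        have h2 : ‖(0 : V)‖ = 1 := mem_sphere_zero_iff_norm.1 hv₀
        rw [norm_zero] at h2
        exact zero_ne_one h2
      have hμ : 0 < ‖T₀ v₀‖ := by
        rw [norm_pos_iff]
        intro h2
        exact hv₀' (hinj T₀ hT₀ (h2.trans (map_zero T₀).symm))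
      refine ⟨‖T₀ v₀‖⁻¹, (inv_pos.2 hμ).le, fun T hT v => ?_⟩
      by_cases hv : v = 0
      · rw [hv]
        simp
      · have h1 : ‖T₀ v₀‖ ≤ ‖T (‖v‖⁻¹ • v)‖ :=
          hmin (show (T, ‖v‖⁻¹ • v) ∈ S ×ˢ Metric.sphere (0 : V) 1 from ⟨hT, hunit v hv⟩)
        rw [map_smul, norm_smul, norm_inv, norm_norm] at h1
        have hv' : 0 < ‖v‖ := norm_pos_iff.2 hv
        have h2 : ‖v‖ * ‖T₀ v₀‖ ≤ ‖T v‖ := by
          calc ‖v‖ * ‖T₀ v₀‖ ≤ ‖v‖ * (‖v‖⁻¹ * ‖T v‖) := mul_le_mul_of_nonneg_left h1 hv'.le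
            _ = ‖T v‖ := by rw [← mul_assoc, mul_inv_cancel₀ hv'.ne', one_mul]
        rw [inv_mul_eq_div, le_div_iff₀ hμ]
        exact h2
  obtain ⟨N, hN0, hN⟩ := key
  refine ⟨max 1 (max C N), le_max_left _ _, fun T hT => ⟨?_, fun v => ?_⟩⟩
  · exact (hC T hT).trans ((le_max_left _ _).trans (le_max_right _ _))
  · exact (hN T hT v).trans (mul_le_mul_of_nonneg_right
      ((le_max_right _ _).trans (le_max_right _ _)) (norm_nonneg _))

end SIM
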