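import Mathlib

/-!
# SIM-2 Cover: finite covers of a compact set of Hausdorff dimension zero by small balls
`borelize X`; `hausdorffMeasure_of_dimH_lt` gives `μH[s] S = 0`. Unfold with `hausdorffMeasure_apply` (supremum over `r > 0` of
the infimum over countable covers by sets `t n` of diameter `≤ r` of `∑' ⨆ (nonempty), diam ^ s`): for a small `r` there is a
cover with `∑ (diam (t n))^s < η'`. Discard the `t n` not meeting `S`; choose `x_n ∈ t n ∩ S` and a radius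
`r_n ∈ (diam (t n), 1)` with `r_n ^ s ≤ (diam (t n))^s + η' 2^(-n-1)` (continuity of `x ^ s` at `diam`), so `t n ⊆ ball x_n r_n`.
Finite subcover by compactness; the finite sum is at most `2 η'`.
-/

set_option autoImplicit false

namespace SIM

open MeasureTheory Measure Set Filter Topology Metric
open scoped ENNReal NNReal

/-- a countable cover with small sum -/
private theorem cov_exists {X : Type*} [MetricSpace X] {S : Set X} (hd : dimH S = 0) (s : ℝ)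
    (hs : 0 < s) (e : ℝ≥0∞) (he : 0 < e) :
    ∃ t : ℕ → Set X, S ⊆ ⋃ n, t n ∧ (∀ n, ediam (t n) ≤ 1 / 2) ∧
      ∑' n, (⨆ _ : (t n).Nonempty, ediam (t n) ^ s) < e := by
  borelize X
  obtain ⟨d, rfl⟩ : ∃ d : ℝ≥0, (d : ℝ) = s := ⟨s.toNNReal, Real.coe_toNNReal s hs.le⟩
  have hd0 : dimH S < (d : ℝ≥0∞) := by
    rw [hd]
    exact_mod_cast hs
  have h0 : μH[(d : ℝ)] S = 0 := hausdorffMeasure_of_dimH_lt hd0
  rw [hausdorffMeasure_apply] at h0
  have h1 : ⨅ (t : ℕ → Set X) (_ : S ⊆ ⋃ n, t n) (_ : ∀ n, ediam (t n) ≤ 1 / 2),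
          ∑' n, ⨆ _ : (t n).Nonempty, ediam (t n) ^ (d : ℝ) ≤ 0 := by
    refine le_trans ?_ h0.le
    exact le_iSup₂ (f := fun (r : ℝ≥0∞) (_ : 0 < r) =>
      ⨅ (t : ℕ → Set X) (_ : S ⊆ ⋃ n, t n) (_ : ∀ n, ediam (t n) ≤ r),
          ∑' n, ⨆ _ : (t n).Nonempty, ediam (t n) ^ (d : ℝ)) (1 / 2 : ℝ≥0∞) (by norm_num)
  have h2 := lt_of_le_of_lt h1 he
  simp only [iInf_lt_iff] at h2
  obtain ⟨t, h3, h4, h5⟩ := h2
  exact ⟨t, h3, h4, h5⟩

/-- a radius slightly larger than `d` -/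
private theorem rad_exists (d s e : ℝ) (_ : 0 ≤ d) (hd1 : d ≤ 1 / 2) (hs : 0 < s) (he : 0 < e) :
    ∃ r : ℝ, d < r ∧ r < 1 ∧ r ^ s ≤ d ^ s + e := by
  have hc : ContinuousAt (fun x : ℝ => x ^ s) d := Real.continuousAt_rpow_const _ _ (Or.inr hs.le)
  have h1 : ∀ᶠ x in 𝓝 d, x ^ s < d ^ s + e :=
    hc.eventually (gt_mem_nhds (by linarith : d ^ s < d ^ s + e))
  have h2 : ∀ᶠ x in 𝓝 d, x < 1 := gt_mem_nhds (by linarith)
  have h3 : ∀ᶠ x in 𝓝[>] d, x ^ s < d ^ s + e ∧ x < 1 :=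
    (h1.and h2).filter_mono nhdsWithin_le_nhds
  have h4 : ∀ᶠ x in 𝓝[>] d, d < x := self_mem_nhdsWithin
  obtain ⟨r, hr⟩ := (h3.and h4).exists
  exact ⟨r, hr.2, hr.1.2, hr.1.1.le⟩

theorem exists_ball_cover {X : Type*} [MetricSpace X] {S : Set X} (hS : IsCompact S)
    (hd : dimH S = 0) (s η : ℝ) (hs : 0 < s) (hη : 0 < η) :
    ∃ F : Finset (X × ℝ), (∀ x ∈ F, x.1 ∈ S ∧ 0 < x.2 ∧ x.2 < 1) ∧
      (∀ T ∈ S, ∃ x ∈ F, dist T x.1 < x.2) ∧ ∑ x ∈ F, x.2 ^ s ≤ η := by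
  classical
  obtain ⟨t, ht1, ht2, ht3⟩ := cov_exists hd s hs (ENNReal.ofReal (η / 2))
    (ENNReal.ofReal_pos.2 (by positivity))
  -- real diameters
  set δ : ℕ → ℝ := fun n => (ediam (t n)).toReal with hδ
  have hne : ∀ n, ediam (t n) ≠ ⊤ := fun n =>
    ne_top_of_le_ne_top (by norm_num) (ht2 n)
  have hδ0 : ∀ n, 0 ≤ δ n := fun n => ENNReal.toReal_nonneg
  have hδ1 : ∀ n, δ n ≤ 1 / 2 := fun n => by
    have := ENNReal.toReal_mono (by norm_num) (ht2 n)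
    simpa [hδ] using this
  choose r hr1 hr2 hr3 using fun n : ℕ => rad_exists (δ n) s (η / 4 * (1 / 2) ^ n) (hδ0 n) (hδ1 n)
    hs (by positivity)
  -- centres
  set I : Set ℕ := {n | (t n ∩ S).Nonempty} with hI
  rcases S.eq_empty_or_nonempty with rfl | ⟨x0, hx0⟩
  · exact ⟨∅, by simp, by simp, by simpa using hη.le⟩
  have hx : ∀ n, ∃ x ∈ S, n ∈ I → x ∈ t n := by
    intro n
    by_cases h : n ∈ I
    · obtain ⟨x, hx⟩ := h
      exact ⟨x, hx.2, fun _ => hx.1⟩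
    · exact ⟨x0, hx0, fun h' => absurd h' h⟩
  choose x hxS hxt using hx
  have hball : ∀ n ∈ I, t n ⊆ ball (x n) (r n) := by
    intro n hn y hy
    rw [mem_ball]
    refine lt_of_le_of_lt ?_ (hr1 n)
    have h1 := Metric.edist_le_ediam_of_mem hy (hxt n hn)
    have h2 : dist y (x n) = (edist y (x n)).toReal := by rw [dist_edist]
    rw [h2]
    exact ENNReal.toReal_mono (hne n) h1
  obtain ⟨J, hJI, hJ⟩ := hS.elim_finite_subcover_image (b := I) (c := fun n => ball (x n) (r n))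
    (fun n _ => isOpen_ball) (by
      intro y hy
      obtain ⟨n, hn⟩ := mem_iUnion.1 (ht1 hy)
      have hnI : n ∈ I := ⟨y, hn, hy⟩
      exact mem_biUnion hnI (hball n hnI hn))
  obtain ⟨hJfin, hJc⟩ := hJ
  set J' : Finset ℕ := hJfin.toFinset with hJ'
  have hr0 : ∀ n, 0 < r n := fun n => lt_of_le_of_lt (hδ0 n) (hr1 n)
  refine ⟨J'.image (fun n => (x n, r n)), ?_, ?_, ?_⟩
  · intro y hy
    obtain ⟨n, _, rfl⟩ := Finset.mem_image.1 hy
    exact ⟨hxS n, hr0 n, hr2 n⟩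
  · intro T hT
    obtain ⟨n, hn, hn2⟩ := mem_iUnion₂.1 (hJc hT)
    exact ⟨(x n, r n), Finset.mem_image.2 ⟨n, hJfin.mem_toFinset.2 hn, rfl⟩, hn2⟩
  · have h1 : ∑ y ∈ J'.image (fun n => (x n, r n)), y.2 ^ s ≤ ∑ n ∈ J', r n ^ s :=
      Finset.sum_image_le_of_nonneg (g := fun n => (x n, r n)) (f := fun y : X × ℝ => y.2 ^ s)
        (fun y hy => by
          obtain ⟨n, _, rfl⟩ := Finset.mem_image.1 hy
          exact Real.rpow_nonneg (hr0 n).le _)
    refine h1.trans ?_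
    have h2 : ∑ n ∈ J', r n ^ s ≤ ∑ n ∈ J', (δ n ^ s + η / 4 * (1 / 2) ^ n) :=
      Finset.sum_le_sum fun n _ => hr3 n
    refine h2.trans ?_
    rw [Finset.sum_add_distrib, ← Finset.mul_sum]
    have h3 : ∑ n ∈ J', ((1 / 2 : ℝ)) ^ n ≤ 2 := by
      have h4 := Summable.sum_le_tsum J' (fun n _ => by positivity) summable_geometric_two
      rw [tsum_geometric_two] at h4
      exact h4
    have h4 : ∑ n ∈ J', δ n ^ s ≤ η / 2 := by
      have h5 : ∀ n ∈ J', ENNReal.ofReal (δ n ^ s) ≤ ⨆ _ : (t n).Nonempty, ediam (t n) ^ s := by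
        intro n hn
        have hnI : n ∈ I := hJI (hJfin.mem_toFinset.1 hn)
        have hnn : (t n).Nonempty := ⟨_, hxt n hnI⟩
        rw [ciSup_pos hnn, ← ENNReal.ofReal_rpow_of_nonneg (hδ0 n) hs.le,
          ENNReal.ofReal_toReal (hne n)]
      have h6 : ENNReal.ofReal (∑ n ∈ J', δ n ^ s) ≤ ENNReal.ofReal (η / 2) := by
        rw [ENNReal.ofReal_sum_of_nonneg fun n _ => Real.rpow_nonneg (hδ0 n) _]
        refine (Finset.sum_le_sum h5).trans ((ENNReal.sum_le_tsum J').trans ht3.le)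
      exact (ENNReal.ofReal_le_ofReal_iff (by positivity)).1 h6
    nlinarith

end SIM
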