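import Mathlib

/-!
# SIM-5 Grid: the grid of mesh `ρ` in `ℝ^d` (sup norm)
`cell ρ y = (⌊y i / ρ⌋)_i`; `corner ρ q = ρ q`. Elementary (`Int.floor_le`, `Int.lt_floor_add_one`, `pi_norm_le_iff_of_nonneg`).
`box B` = all `q : Fin d → ℤ` with `-B ≤ q i ≤ B` (`Fintype.piFinset (fun _ => Finset.Icc (-B) B)`), `card = (2 B + 1)^d`.
`volume_ball`: `Real.volume_pi_ball` (radius `r > 0`: `(2 r)^d`).
-/

set_option autoImplicit false
open MeasureTheory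

namespace SIM

variable {d : ℕ}

/-- the index of the cell of `y` -/
noncomputable def cell (ρ : ℝ) (y : Fin d → ℝ) : Fin d → ℤ := fun i => ⌊y i / ρ⌋

/-- the corner of the cell with index `q` -/
noncomputable def corner (ρ : ℝ) (q : Fin d → ℤ) : Fin d → ℝ := fun i => ρ * q i

/-- the indices in a box -/
noncomputable def box (d : ℕ) (B : ℕ) : Finset (Fin d → ℤ) :=
  Fintype.piFinset fun _ => Finset.Icc (-(B : ℤ)) B

theorem norm_sub_corner {ρ : ℝ} (hρ : 0 < ρ) (y : Fin d → ℝ) :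
    ‖y - corner ρ (cell ρ y)‖ ≤ ρ := by
  rw [pi_norm_le_iff_of_nonneg hρ.le]
  intro i
  have h1 := Int.floor_le (y i / ρ)
  have h2 := Int.lt_floor_add_one (y i / ρ)
  have h3 : (⌊y i / ρ⌋ : ℝ) * ρ ≤ y i := (le_div_iff₀ hρ).1 h1
  have h4 : y i < ((⌊y i / ρ⌋ : ℝ) + 1) * ρ := (div_lt_iff₀ hρ).1 h2
  show ‖y i - ρ * (⌊y i / ρ⌋ : ℝ)‖ ≤ ρ
  rw [Real.norm_eq_abs, abs_le]
  constructor <;> nlinarith

theorem cell_ne {ρ : ℝ} (hρ : 0 < ρ) {y z : Fin d → ℝ} (h : ρ ≤ ‖y - z‖) :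
    cell ρ y ≠ cell ρ z := by
  intro hc
  have hlt : ‖y - z‖ < ρ := by
    rw [pi_norm_lt_iff hρ]
    intro i
    have hi : ⌊y i / ρ⌋ = ⌊z i / ρ⌋ := congrFun hc i
    have h1 := Int.floor_le (y i / ρ)
    have h2 := Int.lt_floor_add_one (y i / ρ)
    have h5 := Int.floor_le (z i / ρ)
    have h6 := Int.lt_floor_add_one (z i / ρ)
    rw [← hi] at h5 h6
    have h3 : (⌊y i / ρ⌋ : ℝ) * ρ ≤ y i := (le_div_iff₀ hρ).1 h1
    have h4 : y i < ((⌊y i / ρ⌋ : ℝ) + 1) * ρ := (div_lt_iff₀ hρ).1 h2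
    have h7 : (⌊y i / ρ⌋ : ℝ) * ρ ≤ z i := (le_div_iff₀ hρ).1 h5
    have h8 : z i < ((⌊y i / ρ⌋ : ℝ) + 1) * ρ := (div_lt_iff₀ hρ).1 h6
    show ‖y i - z i‖ < ρ
    rw [Real.norm_eq_abs, abs_lt]
    constructor <;> linarith
  exact absurd h (not_le.2 hlt)

theorem cell_mem_box {ρ R : ℝ} (hρ : 0 < ρ) {B : ℕ} (hB : R / ρ + 1 ≤ B) {y : Fin d → ℝ}
    (hy : ‖y‖ ≤ R) : cell ρ y ∈ box d B := by
  rw [box, Fintype.mem_piFinset]
  intro i
  have h0 : |y i| ≤ R := (norm_le_pi_norm y i).trans hy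
  have h1 := Int.floor_le (y i / ρ)
  have h2 := Int.lt_floor_add_one (y i / ρ)
  have h3 : y i / ρ ≤ R / ρ := div_le_div_of_nonneg_right (abs_le.1 h0).2 hρ.le
  have h4 : -(R / ρ) ≤ y i / ρ := by
    rw [← neg_div]
    exact div_le_div_of_nonneg_right (abs_le.1 h0).1 hρ.le
  rw [Finset.mem_Icc]
  constructor
  · have h5 : (-(B : ℤ) : ℝ) ≤ ((⌊y i / ρ⌋ : ℤ) : ℝ) := by push_cast; linarith
    exact_mod_cast h5
  · have h5 : ((⌊y i / ρ⌋ : ℤ) : ℝ) ≤ ((B : ℤ) : ℝ) := by push_cast; linarith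
    exact_mod_cast h5

theorem card_box (B : ℕ) : (box d B).card = (2 * B + 1) ^ d := by
  rw [box, Fintype.card_piFinset_const, Int.card_Icc]
  congr 1
  omega

theorem volume_union_balls (F : Finset (Fin d → ℝ)) {r : ℝ} (hr : 0 < r) :
    volume (⋃ x ∈ F, Metric.ball x r) ≤ ENNReal.ofReal (F.card * (2 * r) ^ d) := by
  refine (measure_biUnion_finset_le F fun x => Metric.ball x r).trans ?_
  have h1 : ∀ x ∈ F, volume (Metric.ball x r) = ENNReal.ofReal ((2 * r) ^ d) := by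
    intro x _
    rw [Real.volume_pi_ball x hr, Fintype.card_fin]
  rw [Finset.sum_congr rfl h1, Finset.sum_const, nsmul_eq_mul,
    ENNReal.ofReal_mul (Nat.cast_nonneg _), ENNReal.ofReal_natCast]

end SIM
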