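import Mathlib

/-!
# SIM-1 Rnd: a sparse set hitting almost all tests (counting argument)
Average over all functions `ω : G → Fin m` (uniform counting), `A = {g | ω g = 0}`. `∑_ω |A| = |G| m^(|G|-1)`, i.e. the mean
of `|A|` is `|G|/m`; the number of `ω` with `ω g ≠ 0` for all `g ∈ Q` is `(m-1)^|Q| m^(|G|-|Q|)` (`Fintype.piFinset`), i.e. the
probability is `(1-1/m)^|Q|`. With `X = |A|`, `Y = ` number of surviving tests, `x, y` their means: if `x, y > 0` the mean
of `X/x + Y/y` is `2`, so some `ω` has `X/x + Y/y ≤ 2`. If `x = 0` then `G` is empty; if `y = 0` then `Y = 0` for all `ω`.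
-/

set_option autoImplicit false

namespace SIM

theorem count_avoid {G : Type*} [Fintype G] [DecidableEq G] (Q : Finset G) (m : ℕ) (hm : 0 < m) :
    ((Finset.univ.filter (fun ω : G → Fin m => ∀ g ∈ Q, ω g ≠ ⟨0, hm⟩)).card : ℝ) =
      (m : ℝ) ^ Fintype.card G * (1 - 1 / (m : ℝ)) ^ Q.card := by
  have hm0 : (m : ℝ) ≠ 0 := by exact_mod_cast hm.ne'
  have e : (Finset.univ.filter (fun ω : G → Fin m => ∀ g ∈ Q, ω g ≠ ⟨0, hm⟩)) =
      Fintype.piFinset (fun g => if g ∈ Q then Finset.univ.erase (⟨0, hm⟩ : Fin m)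
        else Finset.univ) := by
    ext ω
    simp only [Finset.mem_filter, Finset.mem_univ, true_and, Fintype.mem_piFinset]
    constructor
    · intro h g
      by_cases hg : g ∈ Q
      · rw [if_pos hg]
        exact Finset.mem_erase.2 ⟨h g hg, Finset.mem_univ _⟩
      · rw [if_neg hg]
        exact Finset.mem_univ _
    · intro h g hg
      have := h g
      rw [if_pos hg] at this
      exact (Finset.mem_erase.1 this).1
  rw [e, Fintype.card_piFinset]
  push_cast
  have h2 : ∀ g : G, (((if g ∈ Q then Finset.univ.erase (⟨0, hm⟩ : Fin m)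
        else Finset.univ) : Finset (Fin m)).card : ℝ) = (m : ℝ) * (if g ∈ Q then (1 - 1 / (m : ℝ)) else 1) := by
    intro g
    split_ifs
    · rw [Finset.card_erase_of_mem (Finset.mem_univ _), Finset.card_univ, Fintype.card_fin,
        Nat.cast_sub hm]
      field_simp
      push_cast
      ring
    · simp
  rw [Finset.prod_congr rfl (fun g _ => h2 g), Finset.prod_mul_distrib, Finset.prod_const,
    Finset.card_univ]
  congr 1
  rw [Finset.prod_ite_mem, Finset.univ_inter, Finset.prod_const]

theorem exists_sparse_hitting {G Τ : Type*} [Fintype G] [DecidableEq G] (tests : Finset Τ)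
    (Q : Τ → Finset G) (m : ℕ) (hm : 0 < m) :
    ∃ A : Finset G, (A.card : ℝ) * m ≤ 2 * Fintype.card G ∧
      ((tests.filter (fun τ => Disjoint (Q τ) A)).card : ℝ) ≤
        2 * ∑ τ ∈ tests, (1 - 1 / (m : ℝ)) ^ (Q τ).card := by
  classical
  have hm0 : (0 : ℝ) < m := by exact_mod_cast hm
  set z : Fin m := ⟨0, hm⟩ with hz
  let A : (G → Fin m) → Finset G := fun ω => Finset.univ.filter (fun g => ω g = z)
  set N : ℝ := (m : ℝ) ^ Fintype.card G with hN
  have hNpos : 0 < N := by positivity
  have hcard : (Fintype.card (G → Fin m) : ℝ) = N := by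
    rw [Fintype.card_fun, Fintype.card_fin]
    push_cast
    rfl
  set a : ℝ := (Fintype.card G : ℝ) with ha
  have ha0 : 0 ≤ a := by positivity
  set S : ℝ := ∑ τ ∈ tests, (1 - 1 / (m : ℝ)) ^ (Q τ).card with hS
  have h1m : (0 : ℝ) ≤ 1 - 1 / (m : ℝ) := by
    rw [sub_nonneg, div_le_one hm0]
    exact_mod_cast hm
  have hS0 : 0 ≤ S := Finset.sum_nonneg fun τ _ => pow_nonneg h1m _
  -- first sum
  have hg : ∀ g : G, ((Finset.univ.filter (fun ω : G → Fin m => ω g = z)).card : ℝ) = N / m := by
    intro g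
    have h1 := count_avoid ({g} : Finset G) m hm
    simp only [Finset.mem_singleton, forall_eq, Finset.card_singleton, pow_one] at h1
    have h2 := Finset.card_filter_add_card_filter_not (s := (Finset.univ : Finset (G → Fin m))) (fun ω => ω g = z)
    have h3 : ((Finset.univ.filter (fun ω : G → Fin m => ω g = z)).card : ℝ)
        + ((Finset.univ.filter (fun ω : G → Fin m => ¬ ω g = z)).card : ℝ) = N := by
      rw [← hcard, ← Finset.card_univ]
      exact_mod_cast h2
    have h4 : ((Finset.univ.filter (fun ω : G → Fin m => ¬ ω g = z)).card : ℝ)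
        = N * (1 - 1 / (m : ℝ)) := h1
    rw [h4] at h3
    field_simp at h3 ⊢
    linarith
  have hX : ∑ ω : G → Fin m, ((A ω).card : ℝ) * m = a * N := by
    have h1 : ∀ ω : G → Fin m, ((A ω).card : ℝ) = ∑ g : G, (if ω g = z then (1 : ℝ) else 0) := by
      intro ω
      rw [Finset.sum_boole]
    rw [← Finset.sum_mul, Finset.sum_congr rfl (fun ω _ => h1 ω), Finset.sum_comm]
    have h2 : ∀ g : G, ∑ ω : G → Fin m, (if ω g = z then (1 : ℝ) else 0) = N / m := by
      intro g
      rw [Finset.sum_boole]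
      exact hg g
    rw [Finset.sum_congr rfl (fun g _ => h2 g), Finset.sum_const, Finset.card_univ, nsmul_eq_mul]
    field_simp
    rfl
  have hY : ∑ ω : G → Fin m, ((tests.filter (fun τ => Disjoint (Q τ) (A ω))).card : ℝ) = N * S := by
    have h1 : ∀ ω : G → Fin m, ((tests.filter (fun τ => Disjoint (Q τ) (A ω))).card : ℝ)
        = ∑ τ ∈ tests, (if Disjoint (Q τ) (A ω) then (1 : ℝ) else 0) := by
      intro ω
      rw [Finset.sum_boole]
    rw [Finset.sum_congr rfl (fun ω _ => h1 ω), Finset.sum_comm, hS, Finset.mul_sum]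
    apply Finset.sum_congr rfl
    intro τ _
    rw [Finset.sum_boole, ← count_avoid (Q τ) m hm]
    congr 2
    ext ω
    simp only [Finset.mem_filter, Finset.mem_univ, true_and, A, Finset.disjoint_left, hz]
  by_contra hcon
  push Not at hcon
  have hbad : ∀ ω : G → Fin m, ((A ω).card : ℝ) * m ≤ 2 * a →
      2 * S < ((tests.filter (fun τ => Disjoint (Q τ) (A ω))).card : ℝ) := fun ω h => hcon (A ω) h
  have hne : (Finset.univ : Finset (G → Fin m)).Nonempty := ⟨fun _ => z, Finset.mem_univ _⟩
  have hsum_const : ∀ c : ℝ, ∑ _ω : G → Fin m, c = N * c := by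
    intro c
    rw [Finset.sum_const, Finset.card_univ, nsmul_eq_mul, hcard]
  rcases ha0.eq_or_lt with ha1 | ha1
  · -- `G` is empty
    have hlt : ∑ _ω : G → Fin m, (2 * S) <
        ∑ ω : G → Fin m, ((tests.filter (fun τ => Disjoint (Q τ) (A ω))).card : ℝ) := by
      apply Finset.sum_lt_sum_of_nonempty hne
      intro ω _
      apply hbad
      have h1 : (A ω).card ≤ Fintype.card G := Finset.card_le_univ _
      have h2 : ((A ω).card : ℝ) ≤ a := by rw [ha]; exact_mod_cast h1
      have h3 : ((A ω).card : ℝ) = 0 := le_antisymm (by linarith) (by positivity)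
      rw [h3]
      linarith
    rw [hsum_const, hY] at hlt
    nlinarith [mul_nonneg hNpos.le hS0]
  rcases hS0.eq_or_lt with hS1 | hS1
  · have hzero : ∀ ω ∈ (Finset.univ : Finset (G → Fin m)),
        ((tests.filter (fun τ => Disjoint (Q τ) (A ω))).card : ℝ) = 0 := by
      rw [← Finset.sum_eq_zero_iff_of_nonneg (fun ω _ => by positivity), hY, ← hS1, mul_zero]
    have hlt : ∑ _ω : G → Fin m, (2 * a) < ∑ ω : G → Fin m, ((A ω).card : ℝ) * m := by
      apply Finset.sum_lt_sum_of_nonempty hne
      intro ω hω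
      by_contra hle
      have h1 := hbad ω (not_lt.1 hle)
      rw [hzero ω hω, ← hS1] at h1
      linarith
    rw [hsum_const, hX] at hlt
    nlinarith [mul_pos hNpos ha1]
  · have hlt : ∑ _ω : G → Fin m, (2 * a * S) <
        ∑ ω : G → Fin m, (((A ω).card : ℝ) * m * S
          + ((tests.filter (fun τ => Disjoint (Q τ) (A ω))).card : ℝ) * a) := by
      apply Finset.sum_lt_sum_of_nonempty hne
      intro ω _
      by_cases h : ((A ω).card : ℝ) * m ≤ 2 * a
      · have h1 := hbad ω h
        have h2 : 0 ≤ ((A ω).card : ℝ) * m * S := by positivity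
        have h3 := mul_lt_mul_of_pos_right h1 ha1
        nlinarith
      · push Not at h
        have h2 : 0 ≤ ((tests.filter (fun τ => Disjoint (Q τ) (A ω))).card : ℝ) * a := by positivity
        have h3 := mul_lt_mul_of_pos_right h hS1
        linarith
    rw [hsum_const, Finset.sum_add_distrib, ← Finset.sum_mul, ← Finset.sum_mul, ← Finset.sum_mul, hY] at hlt
    rw [← Finset.sum_mul] at hX
    rw [hX] at hlt
    nlinarith

end SIM
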