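import Mathlib

/-!
# SIM-3 Subseq: many usable indices in every window
WLOG `c ≤ 1` (indeed `c < 1` since `b → 0`). For a threshold `θ ∈ (0, ‖b 0‖]` let `f θ` be the least `n` with `‖b n‖ ≤ θ`; then
`c θ ≤ ‖b (f θ)‖ ≤ θ` (if `f θ = 0` then `‖b 0‖ = θ`; otherwise `‖b (f θ - 1)‖ > θ`). Put `θ_0 = ρ / r ≤ ‖b 0‖`,
`n_0 = f θ_0`, `n_(k+1) = f (‖b n_k‖ / 4)`: `‖b n_(k+1)‖ ≤ ‖b n_k‖ / 4` and `‖b n_(k+1)‖ ≥ (c/4) ‖b n_k‖`, so
`‖b n_k‖ ≥ (c/4)^k c ρ / r`. `I = {n_0, ..., n_(L-1)}` with `L` the largest number such that `(c/4)^(L-1) c / r ≥ 4 M` (or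
`I = {n_0}`): all `‖b n‖ ≥ 4 M ρ` (for `L ≥ 2`), the `n_k` are distinct, and for `k < l`
`‖b n_k - b n_l‖ ≥ ‖b n_k‖ - ‖b n_l‖ ≥ (3/4) ‖b n_k‖ ≥ 3 M ρ`. `L ≥ log (c/(4 M r)) / log (4/c)`. So `κ = 1 / log (4/c)` and `C0` a
constant depending on `c, M`.
-/

set_option autoImplicit false
open Filter Topology

namespace SIM

/-- existence of an index with norm in `[c θ, θ]` -/
private theorem exists_step {V : Type*} [NormedAddCommGroup V] (b : ℕ → V)
    (hlim : Tendsto b atTop (𝓝 0)) (c : ℝ) (hc : 0 < c) (hgeo : ∀ n, c * ‖b n‖ ≤ ‖b (n + 1)‖)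
    (θ : ℝ) (hθ : 0 < θ) (hθ0 : θ ≤ ‖b 0‖) :
    ∃ n, ‖b n‖ ≤ θ ∧ min c 1 * θ ≤ ‖b n‖ := by
  classical
  have hex : ∃ n, ‖b n‖ ≤ θ := by
    have h1 : Tendsto (fun n => ‖b n‖) atTop (𝓝 0) := by
      simpa using hlim.norm
    have h2 := h1.eventually (gt_mem_nhds hθ)
    obtain ⟨n, hn⟩ := h2.exists
    exact ⟨n, hn.le⟩
  refine ⟨Nat.find hex, Nat.find_spec hex, ?_⟩
  rcases Nat.eq_zero_or_pos (Nat.find hex) with h0 | hpos
  · rw [h0]
    have h1 : min c 1 * θ ≤ 1 * θ := mul_le_mul_of_nonneg_right (min_le_right _ _) hθ.le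
    linarith
  · obtain ⟨m, hm⟩ : ∃ m, Nat.find hex = m + 1 := ⟨Nat.find hex - 1, by omega⟩
    have h1 : ¬ ‖b m‖ ≤ θ := Nat.find_min hex (by omega)
    rw [hm]
    have h2 : θ < ‖b m‖ := not_le.mp h1
    calc min c 1 * θ ≤ c * θ := mul_le_mul_of_nonneg_right (min_le_left _ _) hθ.le
      _ ≤ c * ‖b m‖ := mul_le_mul_of_nonneg_left h2.le hc.le
      _ ≤ ‖b (m + 1)‖ := hgeo m

theorem exists_indices {V : Type*} [NormedAddCommGroup V] (b : ℕ → V) (hb : ∀ n, b n ≠ 0)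
    (hlim : Tendsto b atTop (𝓝 0)) (c : ℝ) (hc : 0 < c) (hgeo : ∀ n, c * ‖b n‖ ≤ ‖b (n + 1)‖)
    (M : ℝ) (hM : 1 ≤ M) :
    ∃ κ C0 : ℝ, 0 < κ ∧ ∀ r ρ : ℝ, 0 < r → r < 1 → 0 < ρ → ρ ≤ r * ‖b 0‖ →
      ∃ I : Finset ℕ, I.Nonempty ∧ κ * Real.log (1 / r) - C0 ≤ I.card ∧
        (∀ n ∈ I, ‖b n‖ ≤ ρ / r) ∧
        (∀ n ∈ I, ∀ n' ∈ I, n ≠ n' → 3 * M * ρ ≤ ‖b n - b n'‖) := by
  classical
  set c' : ℝ := min c 1 with hc'
  have hc'0 : 0 < c' := lt_min hc one_pos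
  have hc'1 : c' ≤ 1 := min_le_right _ _
  have hM0 : 0 < M := by linarith
  set q : ℝ := c' / 4 with hq
  have hq0 : 0 < q := by positivity
  have hq1 : q < 1 := by rw [hq]; linarith
  have hlogq : 0 < Real.log (1 / q) := Real.log_pos (by rw [lt_div_iff₀ hq0]; linarith)
  refine ⟨1 / Real.log (1 / q), 1 / Real.log (1 / q) * Real.log (4 * M / c'), by positivity, ?_⟩
  intro r ρ hr hr1 hρ hρr
  have hbpos : ∀ n, 0 < ‖b n‖ := fun n => norm_pos_iff.mpr (hb n)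
  -- the step function
  have hstep : ∀ θ : ℝ, 0 < θ ∧ θ ≤ ‖b 0‖ → ∃ n, ‖b n‖ ≤ θ ∧ c' * θ ≤ ‖b n‖ := fun θ h =>
    exists_step b hlim c hc hgeo θ h.1 h.2
  choose! f hf using hstep
  let nn : ℕ → ℕ := fun k => Nat.rec (f (ρ / r)) (fun _ m => f (‖b m‖ / 4)) k
  have hnn0 : nn 0 = f (ρ / r) := rfl
  have hnnS : ∀ k, nn (k + 1) = f (‖b (nn k)‖ / 4) := fun k => rfl
  have hρr' : ρ / r ≤ ‖b 0‖ := by rw [div_le_iff₀ hr]; linarith
  have hρr0 : 0 < ρ / r := div_pos hρ hr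
  have hle : ∀ k, ‖b (nn k)‖ ≤ ρ / r := by
    intro k
    induction k with
    | zero => rw [hnn0]; exact (hf _ ⟨hρr0, hρr'⟩).1
    | succ k ih =>
      rw [hnnS]
      have h1 := hbpos (nn k)
      have h2 := (hf (‖b (nn k)‖ / 4) ⟨by positivity, by linarith⟩).1
      linarith
  have hdec : ∀ k, ‖b (nn (k + 1))‖ ≤ ‖b (nn k)‖ / 4 := by
    intro k
    rw [hnnS]
    have h1 := hbpos (nn k)
    have h3 := hle k
    exact (hf (‖b (nn k)‖ / 4) ⟨by positivity, by linarith⟩).1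
  have hlow : ∀ k, q ^ k * (c' * (ρ / r)) ≤ ‖b (nn k)‖ := by
    intro k
    induction k with
    | zero => rw [hnn0, pow_zero, one_mul]; exact (hf _ ⟨hρr0, hρr'⟩).2
    | succ k ih =>
      rw [hnnS]
      have h1 := hbpos (nn k)
      have h3 := hle k
      have h2 := (hf (‖b (nn k)‖ / 4) ⟨by positivity, by linarith⟩).2
      calc q ^ (k + 1) * (c' * (ρ / r)) = q * (q ^ k * (c' * (ρ / r))) := by ring
        _ ≤ q * ‖b (nn k)‖ := mul_le_mul_of_nonneg_left ih hq0.le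
        _ = c' * (‖b (nn k)‖ / 4) := by rw [hq]; ring
        _ ≤ _ := h2
  have hdec2 : ∀ k l, k < l → ‖b (nn l)‖ ≤ ‖b (nn k)‖ / 4 := by
    intro k l hkl
    induction l with
    | zero => omega
    | succ l ih =>
      rcases Nat.lt_succ_iff_lt_or_eq.mp hkl with h | h
      · have h1 := ih h
        have h2 := hdec l
        have h3 := hbpos (nn l)
        linarith
      · subst h
        exact hdec k
  set x : ℝ := Real.log (c' / (4 * M * r)) / Real.log (1 / q) with hx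
  set L : ℕ := ⌊x⌋₊ + 1 with hL
  have hinj : Function.Injective nn := by
    intro k l hkl
    by_contra hne
    rcases lt_or_gt_of_ne hne with h | h
    · have h1 := hdec2 k l h
      rw [hkl] at h1
      have h2 := hbpos (nn l)
      linarith
    · have h1 := hdec2 l k h
      rw [hkl] at h1
      have h2 := hbpos (nn l)
      linarith
  have hbig : ∀ k l, k < l → l < L → 4 * M * ρ ≤ ‖b (nn k)‖ := by
    intro k l hkl hlL
    have h1 : k ≤ ⌊x⌋₊ := by omega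
    have h2 : 1 ≤ ⌊x⌋₊ := by omega
    have hx0 : 0 ≤ x := by
      by_contra hneg
      have := Nat.floor_of_nonpos (not_le.mp hneg).le
      omega
    have h3 : (k : ℝ) ≤ x := (Nat.le_floor_iff hx0).mp h1
    have h4 : (k : ℝ) * Real.log (1 / q) ≤ Real.log (c' / (4 * M * r)) := by
      rw [hx, le_div_iff₀ hlogq] at h3
      exact h3
    have h5 : 0 < c' / (4 * M * r) := by positivity
    have h6 : (1 / q) ^ k ≤ c' / (4 * M * r) := by
      rw [← Real.log_pow] at h4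
      exact (Real.log_le_log_iff (by positivity) h5).mp h4
    have h7 : 4 * M * r ≤ q ^ k * c' := by
      rw [le_div_iff₀ (by positivity), one_div, inv_pow] at h6
      have hqk : 0 < q ^ k := pow_pos hq0 k
      have h8 := mul_le_mul_of_nonneg_left h6 hqk.le
      rwa [← mul_assoc, mul_inv_cancel₀ hqk.ne', one_mul] at h8
    calc 4 * M * ρ = 4 * M * r * (ρ / r) := by field_simp
      _ ≤ q ^ k * c' * (ρ / r) := mul_le_mul_of_nonneg_right h7 hρr0.le
      _ = q ^ k * (c' * (ρ / r)) := by ring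
      _ ≤ _ := hlow k
  have hpair : ∀ k l, k < l → l < L → 3 * M * ρ ≤ ‖b (nn k) - b (nn l)‖ := by
    intro k l hkl hlL
    have h1 := hbig k l hkl hlL
    have h2 := hdec2 k l hkl
    have h3 := norm_sub_norm_le (b (nn k)) (b (nn l))
    nlinarith
  refine ⟨(Finset.range L).image nn, ?_, ?_, ?_, ?_⟩
  · exact ⟨nn 0, Finset.mem_image.mpr ⟨0, Finset.mem_range.mpr (by omega), rfl⟩⟩
  · rw [Finset.card_image_of_injective _ hinj, Finset.card_range]
    have h1 : x < (⌊x⌋₊ : ℝ) + 1 := Nat.lt_floor_add_one x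
    have h2 : ((L : ℕ) : ℝ) = (⌊x⌋₊ : ℝ) + 1 := by rw [hL]; push_cast; ring
    have h3 : 1 / Real.log (1 / q) * Real.log (1 / r) - 1 / Real.log (1 / q) * Real.log (4 * M / c')
        = x := by
      have h4 : c' / (4 * M * r) = (1 / r) / (4 * M / c') := by field_simp
      have h5 : Real.log (c' / (4 * M * r)) = Real.log (1 / r) - Real.log (4 * M / c') := by
        rw [h4, Real.log_div (one_div_pos.mpr hr).ne' (by positivity)]
      rw [hx, h5]
      ring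
    rw [h3, h2]
    exact h1.le
  · intro n hn
    obtain ⟨k, _, rfl⟩ := Finset.mem_image.mp hn
    exact hle k
  · intro n hn n' hn' hne
    obtain ⟨k, hk, rfl⟩ := Finset.mem_image.mp hn
    obtain ⟨l, hl, rfl⟩ := Finset.mem_image.mp hn'
    have hkl : k ≠ l := fun h => hne (by rw [h])
    rcases lt_or_gt_of_ne hkl with h | h
    · exact hpair k l h (Finset.mem_range.mp hl)
    · rw [norm_sub_rev]
      exact hpair l k h (Finset.mem_range.mp hk)

end SIM
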