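import Mathlib
import Pool.Agent.Helper58.SIM.Rnd
import Pool.Agent.Helper58.SIM.Cover
import Pool.Agent.Helper58.SIM.Subseq
import Pool.Agent.Helper58.SIM.Bounds
import Pool.Agent.Helper58.SIM.Grid

/-!
# SIM-6 Key: an open set of small measure meeting all copies with linear part in a compact set of dimension zero
Write `V = Fin d → ℝ`; `0 < d` (otherwise `b 0 = 0`). `M` from `exists_bound`, `κ, C0` from `exists_indices` (for this `M`).
Let `R = 1 + M ‖b 0‖ + M` (all points `t + T b_n` with `‖b n‖ ≤ ρ/r ≤ ‖b 0‖` have norm `≤ R`; `ρ ≤ 1`).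
1. Choose `m ≥ 2` with `2 (8 (2 R + 5))^d / m ≤ η / 2`. `a = 1 - 1/m ∈ (0,1)`, `s = κ log (1/a) > 0`.
   For `r ∈ (0,1)` and `|I| ≥ κ log (1/r) - C0`: `a^|I| ≤ a^(-C0) r^s` (real powers).
2. `exists_ball_cover` with `s` and `η'`, where `2 (6 (2 R + 5))^d a^(-C0) η' ≤ η / 2`: finite `F` of pairs `(S_j, r_j)`.
   If `S` is empty take `D = ∅`. Choose `ρ ∈ (0, 1]` with `ρ ≤ r_j ‖b 0‖` for all `j`. `B = ⌈R / ρ⌉₊ + 1`, `G = box d B` (use the
   subtype or `Fintype` of the finset): `|G| ρ^d = (2 B + 1)^d ρ^d ≤ (2 R + 5)^d`.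
3. Tests: pairs `(i, j) ∈ box d B × F`; `I_j` from `exists_indices` with `r_j, ρ`;
   `Q (i,j) = {cell ρ (corner ρ i + S_j (b n)) : n ∈ I_j}` (intersected with `G`; only tests `i = cell ρ t`, `t ∈ [0,1]^d`, are needed,
   for these all cells are in `G`; so take as tests the `i ∈ box` with `‖corner ρ i‖ ≤ 1`). The cells are distinct since
   `‖S_j (b n) - S_j (b n')‖ ≥ ‖b n - b n'‖ / M ≥ 3 ρ` (`cell_ne`), so `|Q| = |I_j|`.
4. `exists_sparse_hitting` gives `A ⊆ G`, `|A| m ≤ 2 |G|`, and at most `2 |G| ∑_j a^|I_j| ≤ 2 |G| a^(-C0) ∑ r_j^s ≤ 2 |G| a^(-C0) η'`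
   surviving tests. `D` = union of `ball (corner ρ q) (4 ρ)`, `q ∈ A`, and of `ball (corner ρ i + S_j (b n_j)) (3 ρ)` over the
   surviving tests, `n_j ∈ I_j` fixed. `volume D ≤ |A| (8 ρ)^d + (surviving) (6 ρ)^d ≤ η` (`volume_union_balls`).
5. Given `T ∈ S`, `t ∈ [0,1]^d`: `j` with `‖T - S_j‖ < r_j`, `i = cell ρ t`. For `n ∈ I_j`:
   `‖t + T (b n) - (corner ρ i + S_j (b n))‖ ≤ ρ + r_j ‖b n‖ ≤ 2 ρ`. If the test survives use `n = n_j`; otherwise some `n ∈ I_j` has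
   `q = cell ρ (corner ρ i + S_j (b n)) ∈ A` and `‖t + T (b n) - corner ρ q‖ ≤ 2 ρ + ρ < 4 ρ`.
-/

set_option autoImplicit false
open MeasureTheory Filter Topology

namespace SIM

theorem exists_common_bound {X : Type*} (F : Finset X) (f : X → ℝ) (hf : ∀ x ∈ F, 0 < f x) :
    ∃ ρ : ℝ, 0 < ρ ∧ ρ ≤ 1 ∧ ∀ x ∈ F, ρ ≤ f x := by
  classical
  induction F using Finset.induction_on with
  | empty => exact ⟨1, one_pos, le_rfl, fun x hx => absurd hx (Finset.notMem_empty x)⟩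
  | insert x F hx ih =>
    obtain ⟨ρ, h0, h1, h2⟩ := ih fun y hy => hf y (Finset.mem_insert_of_mem hy)
    refine ⟨min ρ (f x), lt_min h0 (hf x (Finset.mem_insert_self _ _)), (min_le_left _ _).trans h1,
      fun y hy => ?_⟩
    rcases Finset.mem_insert.1 hy with h | h
    · rw [h]; exact min_le_right _ _
    · exact (min_le_left _ _).trans (h2 y h)

theorem corner_cell_norm {d : ℕ} {ρ : ℝ} (hρ : 0 < ρ) {t : Fin d → ℝ}
    (ht : t ∈ Set.Icc (0 : Fin d → ℝ) 1) : ‖corner ρ (cell ρ t)‖ ≤ 1 := by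
  refine (pi_norm_le_iff_of_nonneg zero_le_one).2 fun i => ?_
  have h0 : 0 ≤ t i := ht.1 i
  have h1 : t i ≤ 1 := ht.2 i
  have h2 : (0 : ℝ) ≤ (⌊t i / ρ⌋ : ℤ) := by
    exact_mod_cast Int.floor_nonneg.2 (div_nonneg h0 hρ.le)
  have h3 : ((⌊t i / ρ⌋ : ℤ) : ℝ) ≤ t i / ρ := Int.floor_le _
  have h4 : ρ * ((⌊t i / ρ⌋ : ℤ) : ℝ) ≤ t i := by
    rw [le_div_iff₀ hρ] at h3
    linarith
  show ‖ρ * ((⌊t i / ρ⌋ : ℤ) : ℝ)‖ ≤ 1
  rw [Real.norm_of_nonneg (mul_nonneg hρ.le h2)]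
  linarith

theorem key {d : ℕ} (b : ℕ → Fin d → ℝ) (hb : ∀ n, b n ≠ 0)
    (hlim : Tendsto b atTop (𝓝 0)) (c : ℝ) (hc : 0 < c) (hgeo : ∀ n, c * ‖b n‖ ≤ ‖b (n + 1)‖)
    {S : Set ((Fin d → ℝ) →L[ℝ] (Fin d → ℝ))} (hS : IsCompact S)
    (hinj : ∀ T ∈ S, Function.Injective T) (hdim : dimH S = 0) (η : ℝ) (hη : 0 < η) :
    ∃ D : Set (Fin d → ℝ), IsOpen D ∧ volume D ≤ ENNReal.ofReal η ∧
      ∀ T ∈ S, ∀ t ∈ Set.Icc (0 : Fin d → ℝ) 1, ∃ n, t + T (b n) ∈ D := by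
  classical
  obtain ⟨M, hM1, hM⟩ := exists_bound hS hinj
  obtain ⟨κ, C0, hκ, hI⟩ := exists_indices b hb hlim c hc hgeo M hM1
  have hM0 : 0 < M := by linarith
  have hb0 : 0 < ‖b 0‖ := norm_pos_iff.2 (hb 0)
  set R : ℝ := 1 + M * ‖b 0‖ with hR
  have hRpos : 1 ≤ R := by rw [hR]; nlinarith [mul_pos hM0 hb0]
  set C1 : ℝ := (2 * R + 5) ^ d with hC1
  have hC1pos : 0 < C1 := by positivity
  -- the number m
  obtain ⟨m, hm⟩ := exists_nat_gt (max 2 (4 * 8 ^ d * C1 / η))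
  have hm2 : (2 : ℝ) < m := (le_max_left _ _).trans_lt hm
  have hm0 : (0 : ℝ) < m := by linarith
  have hm3 : 4 * 8 ^ d * C1 / η < m := (le_max_right _ _).trans_lt hm
  have hmη : 2 * 8 ^ d * C1 / m ≤ η / 2 := by
    rw [div_lt_iff₀ hη] at hm3
    rw [div_le_iff₀ hm0]
    linarith
  have hmpos : 0 < m := by exact_mod_cast hm0
  set a : ℝ := 1 - 1 / (m : ℝ) with ha
  have ha1 : a < 1 := by rw [ha]; have := one_div_pos.2 hm0; linarith
  have ha0 : 0 < a := by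
    rw [ha]
    have : 1 / (m : ℝ) < 1 := by rw [div_lt_one hm0]; linarith
    linarith
  have hla : Real.log a < 0 := Real.log_neg ha0 ha1
  set s : ℝ := κ * (-Real.log a) with hs
  have hs0 : 0 < s := mul_pos hκ (by linarith)
  set C2 : ℝ := Real.exp (C0 * (-Real.log a)) with hC2
  have hC2pos : 0 < C2 := Real.exp_pos _
  have hpow : ∀ (r : ℝ) (k : ℕ), 0 < r → κ * Real.log (1 / r) - C0 ≤ k → a ^ k ≤ C2 * r ^ s := by
    intro r k hr hk
    have h1 : a ^ k = Real.exp (k * Real.log a) := by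
      rw [mul_comm, Real.exp_mul, Real.exp_log ha0, Real.rpow_natCast]
    have h2 : C2 * r ^ s = Real.exp ((κ * Real.log (1 / r) - C0) * Real.log a) := by
      rw [hC2, Real.rpow_def_of_pos hr, ← Real.exp_add, one_div, Real.log_inv, hs]
      congr 1; ring
    rw [h1, h2]
    exact Real.exp_le_exp.2 (mul_le_mul_of_nonpos_right hk hla.le)
  -- the cover
  obtain ⟨F, hF1, hF2, hF3⟩ := exists_ball_cover hS hdim s (η / (4 * 6 ^ d * C1 * C2)) hs0
    (by positivity)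
  obtain ⟨ρ, hρ0, hρ1, hρF⟩ := exists_common_bound F (fun x => x.2 * ‖b 0‖)
    (fun x hx => mul_pos (hF1 x hx).2.1 hb0)
  have hchoice : ∀ x : F, ∃ I : Finset ℕ, I.Nonempty ∧
      κ * Real.log (1 / x.1.2) - C0 ≤ I.card ∧ (∀ n ∈ I, ‖b n‖ ≤ ρ / x.1.2) ∧
        (∀ n ∈ I, ∀ n' ∈ I, n ≠ n' → 3 * M * ρ ≤ ‖b n - b n'‖) := fun x =>
    hI x.1.2 ρ (hF1 _ x.2).2.1 (hF1 _ x.2).2.2 hρ0 (hρF _ x.2)
  choose I hIne hIcard hIle hIsep using hchoice
  choose n0 hn0 using hIne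
  -- the grid
  set B : ℕ := ⌈R / ρ + 1⌉₊ with hB
  have hB1 : R / ρ + 1 ≤ B := Nat.le_ceil _
  have hB2 : (B : ℝ) < R / ρ + 1 + 1 := Nat.ceil_lt_add_one (by positivity)
  have hG : (Fintype.card ↥(box d B) : ℝ) * ρ ^ d ≤ C1 := by
    rw [Fintype.card_coe, card_box]
    push_cast
    rw [← mul_pow, hC1]
    refine pow_le_pow_left₀ (by positivity) ?_ d
    have h5 : (B : ℝ) * ρ ≤ R + 2 * ρ := by
      have := mul_le_mul_of_nonneg_right hB2.le hρ0.le
      have h6 : (R / ρ + 1 + 1) * ρ = R + 2 * ρ := by field_simp; ring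
      linarith
    nlinarith
  -- points of the tests
  let pt : (Fin d → ℤ) × F → ℕ → (Fin d → ℝ) := fun τ n => corner ρ τ.1 + τ.2.1.1 (b n)
  let tests : Finset ((Fin d → ℤ) × F) :=
    ((box d B).filter fun i => ‖corner ρ i‖ ≤ 1) ×ˢ F.attach
  let Q : (Fin d → ℤ) × F → Finset ↥(box d B) := fun τ =>
    ((I τ.2).image fun n => cell ρ (pt τ n)).subtype (· ∈ box d B)
  have hptR : ∀ τ ∈ tests, ∀ n ∈ I τ.2, ‖pt τ n‖ ≤ R := by
    intro τ hτ n hn
    have h1 : ‖corner ρ τ.1‖ ≤ 1 :=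
      (Finset.mem_filter.1 (Finset.mem_product.1 hτ).1).2
    have h2 : ‖τ.2.1.1‖ ≤ M := (hM _ (hF1 _ τ.2.2).1).1
    have hr := (hF1 _ τ.2.2).2.1
    have h3 : ‖b n‖ ≤ ‖b 0‖ := by
      refine (hIle τ.2 n hn).trans ?_
      rw [div_le_iff₀ hr, mul_comm]
      exact hρF _ τ.2.2
    have h4 : ‖τ.2.1.1 (b n)‖ ≤ M * ‖b 0‖ :=
      (τ.2.1.1.le_opNorm (b n)).trans (mul_le_mul h2 h3 (norm_nonneg _) hM0.le)
    exact (norm_add_le _ _).trans (add_le_add h1 h4)
  have hQcard : ∀ τ ∈ tests, (Q τ).card = (I τ.2).card := by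
    intro τ hτ
    have h1 : ∀ q ∈ (I τ.2).image (fun n => cell ρ (pt τ n)), q ∈ box d B := by
      intro q hq
      obtain ⟨n, hn, rfl⟩ := Finset.mem_image.1 hq
      exact cell_mem_box hρ0 hB1 (hptR τ hτ n hn)
    have h2 : (Q τ).card = ((I τ.2).image fun n => cell ρ (pt τ n)).card := by
      show (((I τ.2).image fun n => cell ρ (pt τ n)).subtype (· ∈ box d B)).card = _
      rw [Finset.card_subtype, Finset.filter_true_of_mem h1]
    rw [h2]
    refine Finset.card_image_of_injOn fun n hn n' hn' h => ?_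
    by_contra hne
    refine cell_ne hρ0 ?_ h
    have h3 := hIsep τ.2 n hn n' hn' hne
    have h4 := (hM _ (hF1 _ τ.2.2).1).2 (b n - b n')
    have h5 : pt τ n - pt τ n' = τ.2.1.1 (b n - b n') := by
      simp only [pt, map_sub]; abel
    rw [h5]
    have h6 : M * ρ ≤ M * ‖τ.2.1.1 (b n - b n')‖ := by nlinarith [mul_pos hM0 hρ0]
    exact le_of_mul_le_mul_left h6 hM0
  obtain ⟨A, hA1, hA2⟩ := exists_sparse_hitting tests Q m hmpos
  -- the two families of balls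
  let Y1 : Finset (Fin d → ℝ) := A.image fun q => corner ρ q.1
  let Y2 : Finset (Fin d → ℝ) := (tests.filter fun τ => Disjoint (Q τ) A).image fun τ =>
    pt τ (n0 τ.2)
  have hsurv : ((tests.filter fun τ => Disjoint (Q τ) A).card : ℝ) ≤
      2 * ((Fintype.card ↥(box d B) : ℝ) * (C2 * (η / (4 * 6 ^ d * C1 * C2)))) := by
    refine hA2.trans (mul_le_mul_of_nonneg_left ?_ zero_le_two)
    have h1 : ∀ τ ∈ tests, (1 - 1 / (m : ℝ)) ^ (Q τ).card ≤ C2 * (τ.2.1.2) ^ s := by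
      intro τ hτ
      rw [hQcard τ hτ]
      exact hpow _ _ (hF1 _ τ.2.2).2.1 (hIcard τ.2)
    refine (Finset.sum_le_sum h1).trans ?_
    show ∑ τ ∈ ((box d B).filter fun i => ‖corner ρ i‖ ≤ 1) ×ˢ F.attach,
      C2 * (τ.2.1.2) ^ s ≤ _
    rw [Finset.sum_product]
    have h2 : ∀ i ∈ (box d B).filter (fun i => ‖corner ρ i‖ ≤ 1),
        ∑ x ∈ F.attach, C2 * (x.1.2) ^ s ≤ C2 * (η / (4 * 6 ^ d * C1 * C2)) := by
      intro i _
      rw [← Finset.mul_sum]
      refine mul_le_mul_of_nonneg_left ?_ hC2pos.le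
      rw [Finset.sum_attach F (fun x => x.2 ^ s)]
      exact hF3
    refine (Finset.sum_le_sum h2).trans ?_
    rw [Finset.sum_const, nsmul_eq_mul]
    refine mul_le_mul_of_nonneg_right ?_ (by positivity)
    rw [Fintype.card_coe]
    exact_mod_cast Finset.card_filter_le _ _
  refine ⟨(⋃ y ∈ Y1, Metric.ball y (4 * ρ)) ∪ ⋃ y ∈ Y2, Metric.ball y (3 * ρ), ?_, ?_, ?_⟩
  · exact (isOpen_biUnion fun _ _ => Metric.isOpen_ball).union
      (isOpen_biUnion fun _ _ => Metric.isOpen_ball)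
  · have hv1 := volume_union_balls Y1 (show 0 < 4 * ρ by linarith)
    have hv2 := volume_union_balls Y2 (show 0 < 3 * ρ by linarith)
    have hb1 : (Y1.card : ℝ) * (2 * (4 * ρ)) ^ d ≤ η / 2 := by
      have h1 : (Y1.card : ℝ) ≤ A.card := by exact_mod_cast Finset.card_image_le
      have h2 : (A.card : ℝ) ≤ 2 * (Fintype.card ↥(box d B) : ℝ) / m := by
        rw [le_div_iff₀ hm0]; exact hA1
      have h3 : (2 * (4 * ρ)) ^ d = 8 ^ d * ρ ^ d := by rw [← mul_pow]; ring_nf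
      rw [h3]
      calc (Y1.card : ℝ) * (8 ^ d * ρ ^ d) ≤
            (2 * (Fintype.card ↥(box d B) : ℝ) / m) * (8 ^ d * ρ ^ d) :=
            mul_le_mul_of_nonneg_right (h1.trans h2) (by positivity)
        _ = 2 * 8 ^ d * ((Fintype.card ↥(box d B) : ℝ) * ρ ^ d) / m := by ring
        _ ≤ 2 * 8 ^ d * C1 / m := by
            refine div_le_div_of_nonneg_right ?_ hm0.le
            exact mul_le_mul_of_nonneg_left hG (by positivity)
        _ ≤ η / 2 := hmη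
    have hb2 : (Y2.card : ℝ) * (2 * (3 * ρ)) ^ d ≤ η / 2 := by
      have h1 : (Y2.card : ℝ) ≤ ((tests.filter fun τ => Disjoint (Q τ) A).card : ℝ) := by
        exact_mod_cast Finset.card_image_le
      have h3 : (2 * (3 * ρ)) ^ d = 6 ^ d * ρ ^ d := by rw [← mul_pow]; ring_nf
      rw [h3]
      calc (Y2.card : ℝ) * (6 ^ d * ρ ^ d) ≤
            (2 * ((Fintype.card ↥(box d B) : ℝ) * (C2 * (η / (4 * 6 ^ d * C1 * C2))))) *
              (6 ^ d * ρ ^ d) :=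
            mul_le_mul_of_nonneg_right (h1.trans hsurv) (by positivity)
        _ = ((Fintype.card ↥(box d B) : ℝ) * ρ ^ d) * (η / (2 * C1)) := by
            field_simp
            ring
        _ ≤ C1 * (η / (2 * C1)) := mul_le_mul_of_nonneg_right hG (by positivity)
        _ = η / 2 := by field_simp
    calc volume _ ≤ volume (⋃ y ∈ Y1, Metric.ball y (4 * ρ)) +
          volume (⋃ y ∈ Y2, Metric.ball y (3 * ρ)) := measure_union_le _ _
      _ ≤ ENNReal.ofReal (η / 2) + ENNReal.ofReal (η / 2) :=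
          add_le_add (hv1.trans (ENNReal.ofReal_le_ofReal hb1))
            (hv2.trans (ENNReal.ofReal_le_ofReal hb2))
      _ = ENNReal.ofReal η := by
          rw [← ENNReal.ofReal_add (by linarith) (by linarith)]
          congr 1; ring
  · intro T hT t ht
    obtain ⟨x, hxF, hx⟩ := hF2 T hT
    have hr := (hF1 x hxF).2.1
    have htn : ‖t‖ ≤ 1 := by
      refine (pi_norm_le_iff_of_nonneg zero_le_one).2 fun i => ?_
      rw [Real.norm_of_nonneg (ht.1 i)]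
      exact ht.2 i
    set i : Fin d → ℤ := cell ρ t with hi
    set τ : (Fin d → ℤ) × F := (i, ⟨x, hxF⟩) with hτdef
    have hτ : τ ∈ tests := by
      refine Finset.mem_product.2 ⟨Finset.mem_filter.2 ⟨?_, corner_cell_norm hρ0 ht⟩,
        Finset.mem_attach _ _⟩
      exact cell_mem_box hρ0 hB1 (htn.trans hRpos)
    have hnear : ∀ n ∈ I ⟨x, hxF⟩, ‖t + T (b n) - pt τ n‖ ≤ 2 * ρ := by
      intro n hn
      have h1 : t + T (b n) - pt τ n = (t - corner ρ i) + (T - x.1) (b n) := by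
        simp only [pt, hτdef, ContinuousLinearMap.sub_apply]
        abel
      have h2 : ‖(T - x.1) (b n)‖ ≤ ρ := by
        refine ((T - x.1).le_opNorm (b n)).trans ?_
        rw [dist_eq_norm] at hx
        calc ‖T - x.1‖ * ‖b n‖ ≤ x.2 * (ρ / x.2) :=
              mul_le_mul hx.le (hIle ⟨x, hxF⟩ n hn) (norm_nonneg _) hr.le
          _ = ρ := by field_simp
      rw [h1]
      refine (norm_add_le _ _).trans ?_
      have := norm_sub_corner hρ0 t
      linarith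
    by_cases hdis : Disjoint (Q τ) A
    · refine ⟨n0 ⟨x, hxF⟩, Or.inr ?_⟩
      refine Set.mem_iUnion₂.2 ⟨pt τ (n0 τ.2), ?_, ?_⟩
      · exact Finset.mem_image.2 ⟨τ, Finset.mem_filter.2 ⟨hτ, hdis⟩, rfl⟩
      · rw [Metric.mem_ball, dist_eq_norm]
        have := hnear (n0 ⟨x, hxF⟩) (hn0 ⟨x, hxF⟩)
        exact this.trans_lt (by linarith)
    · rw [Finset.not_disjoint_iff] at hdis
      obtain ⟨q, hqQ, hqA⟩ := hdis
      obtain ⟨n, hn, hnq⟩ := Finset.mem_image.1 (Finset.mem_subtype.1 hqQ)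
      refine ⟨n, Or.inl ?_⟩
      refine Set.mem_iUnion₂.2 ⟨corner ρ q.1, Finset.mem_image.2 ⟨q, hqA, rfl⟩, ?_⟩
      rw [Metric.mem_ball, dist_eq_norm]
      have h1 := hnear n hn
      have h2 := norm_sub_corner hρ0 (pt τ n)
      rw [hnq] at h2
      have h3 : t + T (b n) - corner ρ q.1 = (t + T (b n) - pt τ n) +
          (pt τ n - corner ρ q.1) := by abel
      rw [h3]
      refine (norm_add_le _ _).trans_lt ?_
      linarith

end SIM
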