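import Mathlib
import Pool.Agent.Helper58.SIM.Key

/-!
# SIM-7 Main: the theorem
`b n = e n - p`. For `i` let `D_i` be `key` for `𝒯 i` and `η / 2^(i+1)`; `K = Icc 0 1 \ ⋃ D_i`, compact. If `t + T (e n) ∈ K` for
all `n`, then `t' = t + T p = lim (t + T (e n)) ∈ Icc 0 1` and `t + T (e n) = t' + T (b n)`.
-/

set_option autoImplicit false
open MeasureTheory Filter Topology

namespace SIM

theorem main (d : ℕ) (e : ℕ → Fin d → ℝ) (p : Fin d → ℝ) (hne : ∀ n, e n ≠ p)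
    (hlim : Tendsto e atTop (𝓝 p)) (c : ℝ) (hc : 0 < c)
    (hgeo : ∀ n, c * ‖e n - p‖ ≤ ‖e (n + 1) - p‖)
    (𝒯 : ℕ → Set ((Fin d → ℝ) →L[ℝ] (Fin d → ℝ))) (hcomp : ∀ i, IsCompact (𝒯 i))
    (hinj : ∀ i, ∀ T ∈ 𝒯 i, Function.Injective T) (hdim : ∀ i, dimH (𝒯 i) = 0)
    (η : ℝ) (hη : 0 < η) :
    ∃ K : Set (Fin d → ℝ), IsCompact K ∧ K ⊆ Set.Icc 0 1 ∧
      volume (Set.Icc 0 1 \ K) ≤ ENNReal.ofReal η ∧
      ∀ i, ∀ T ∈ 𝒯 i, ∀ t : Fin d → ℝ, ¬ ∀ n, t + T (e n) ∈ K := by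
  set b : ℕ → Fin d → ℝ := fun n => e n - p with hbdef
  have hb : ∀ n, b n ≠ 0 := fun n => sub_ne_zero.2 (hne n)
  have hb0 : Tendsto b atTop (𝓝 0) := by
    have := hlim.sub_const p
    simpa [hbdef] using this
  have hex := fun i => key b hb hb0 c hc hgeo (hcomp i) (hinj i) (hdim i) (η / 2 / 2 ^ i)
    (by positivity)
  choose D hDo hDv hD using hex
  refine ⟨Set.Icc 0 1 \ ⋃ i, D i, isCompact_Icc.diff (isOpen_iUnion hDo), Set.sdiff_subset, ?_, ?_⟩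
  · have h1 : (Set.Icc 0 1 \ (Set.Icc 0 1 \ ⋃ i, D i) : Set (Fin d → ℝ)) ⊆ ⋃ i, D i := by
      intro x hx
      by_contra h
      exact hx.2 ⟨hx.1, h⟩
    refine (measure_mono h1).trans ((measure_iUnion_le _).trans ?_)
    refine (ENNReal.tsum_le_tsum hDv).trans ?_
    rw [← ENNReal.ofReal_tsum_of_nonneg (fun i => by positivity) (summable_geometric_two' η)]
    rw [tsum_geometric_two' η]
  · intro i T hT t hK
    have ht : t + T p ∈ Set.Icc (0 : Fin d → ℝ) 1 := by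
      have h2 : Tendsto (fun n => t + T (e n)) atTop (𝓝 (t + T p)) :=
        ((T.continuous.tendsto p).comp hlim).const_add t
      exact isClosed_Icc.mem_of_tendsto h2 (Eventually.of_forall fun n => (hK n).1)
    obtain ⟨n, hn⟩ := hD i T hT _ ht
    refine (hK n).2 (Set.mem_iUnion.2 ⟨i, ?_⟩)
    have h3 : t + T (e n) = t + T p + T (b n) := by
      rw [hbdef]
      simp only [map_sub]
      abel
    rw [h3]
    exact hn

end SIM
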